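import Pool.Agent.Y148.OD.Stm3

set_option autoImplicit false

/-!
# Project OD: decomposition of a closed cone into irreducible closed cones (job OD-17)
-/

namespace Pool.Agent.Y899.OD

open MvPolynomial Pool.Agent.Y148.OD

section hom

variable {Ω τ : Type} [Field Ω]

theorem eval_smul_hom {P : MvPolynomial τ Ω} {n : ℕ} (hP : P.IsHomogeneous n) (c : Ω)
    (v : τ → Ω) : eval (c • v) P = c ^ n * eval v P := by
  rw [eval_eq, eval_eq, Finset.mul_sum]
  refine Finset.sum_congr rfl fun d hd => ?_
  have h1 : ∑ i ∈ d.support, d i = n := by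
    have h0 : Finsupp.weight 1 d = n := hP (mem_support_iff.1 hd)
    rw [← h0, Finsupp.weight_apply, Finsupp.sum]
    simp
  have h2 : ∏ i ∈ d.support, (c • v) i ^ d i = c ^ n * ∏ i ∈ d.support, v i ^ d i := by
    rw [← h1, ← Finset.prod_pow_eq_pow_sum, ← Finset.prod_mul_distrib]
    refine Finset.prod_congr rfl fun i _ => ?_
    rw [Pi.smul_apply, smul_eq_mul, mul_pow]
  rw [h2]
  ring

theorem hom_vanish [Infinite Ω] {P : MvPolynomial τ Ω} {v : τ → Ω}
    (h : ∀ c : Ω, c ≠ 0 → eval (c • v) P = 0) (i : ℕ) :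
    eval v (homogeneousComponent i P) = 0 := by
  set q : Polynomial Ω := ∑ j ∈ Finset.range (P.totalDegree + 1),
    Polynomial.C (eval v (homogeneousComponent j P)) * Polynomial.X ^ j with hq
  have h1 : ∀ c : Ω, q.eval c = eval (c • v) P := by
    intro c
    conv_rhs => rw [← sum_homogeneousComponent P, map_sum]
    rw [hq, Polynomial.eval_finsetSum]
    refine Finset.sum_congr rfl fun j _ => ?_
    rw [eval_smul_hom (homogeneousComponent_isHomogeneous j P), Polynomial.eval_mul,
      Polynomial.eval_C, Polynomial.eval_pow, Polynomial.eval_X, mul_comm]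
  have h2 : q = 0 := by
    by_contra hne
    have h3 : {c : Ω | c ≠ 0} ⊆ {c : Ω | q.IsRoot c} := by
      intro c hc
      show q.eval c = 0
      rw [h1]
      exact h c hc
    have h4 : {c : Ω | q.IsRoot c}.Finite := by
      have := Polynomial.finite_setOfPred_isRoot hne
      exact this
    have h5 : {c : Ω | c ≠ 0}.Infinite := by
      have : {c : Ω | c ≠ 0} = {(0 : Ω)}ᶜ := by ext; simp
      rw [this]
      exact (Set.finite_singleton (0 : Ω)).infinite_compl
    exact h5 (h4.subset h3)
  by_cases hi : i ∈ Finset.range (P.totalDegree + 1)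
  · have h3 : q.coeff i = eval v (homogeneousComponent i P) := by
      rw [hq, Polynomial.finsetSum_coeff]
      simp only [Polynomial.coeff_C_mul, Polynomial.coeff_X_pow, mul_ite, mul_one, mul_zero]
      rw [Finset.sum_ite_eq, if_pos hi]
    rw [← h3, h2, Polynomial.coeff_zero]
  · rw [homogeneousComponent_eq_zero, map_zero]
    simpa using hi

end hom

section

variable {Ω τ : Type} [Field Ω]

/-- the polynomials which vanish on `W` -/
def vI (W : Set (τ → Ω)) : Ideal (MvPolynomial τ Ω) := vanishingIdeal Ω W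

theorem mem_vI {W : Set (τ → Ω)} {P : MvPolynomial τ Ω} : P ∈ vI W ↔ ∀ v ∈ W, eval v P = 0 :=
  Iff.rfl

/-- nonzero zeros of an ideal -/
def DD (p : Ideal (MvPolynomial τ Ω)) : Set (τ → Ω) := {v | v ≠ 0 ∧ ∀ P ∈ p, eval v P = 0}

attribute [local instance] MvPolynomial.gradedAlgebra

/-- minimal primes over the ideal of a cone are homogeneous -/
theorem min_hom [Infinite Ω] {W : Set (τ → Ω)}
    (hW : ∀ (c : Ω) (v : τ → Ω), c ≠ 0 → v ∈ W → c • v ∈ W) {p : Ideal (MvPolynomial τ Ω)}
    (hp : p ∈ (vI W).minimalPrimes) {P : MvPolynomial τ Ω} (hP : P ∈ p) (i : ℕ) :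
    homogeneousComponent i P ∈ p := by
  classical
  have hI : (vI W).IsHomogeneous (homogeneousSubmodule τ Ω) := by
    intro i Q hQ
    have h1 : ((DirectSum.decompose (homogeneousSubmodule τ Ω) Q) i : MvPolynomial τ Ω)
        = homogeneousComponent i Q := decomposition.decompose'_apply Q i
    rw [h1, mem_vI]
    intro v hv
    exact hom_vanish (fun c hc => mem_vI.1 hQ _ (hW c v hc hv)) i
  have hprime : p.IsPrime := hp.1.1
  have hle : vI W ≤ p := hp.1.2
  have h2 : vI W ≤ (p.homogeneousCore (homogeneousSubmodule τ Ω)).toIdeal :=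
    hI.toIdeal_homogeneousCore_eq_self.symm.trans_le (Ideal.homogeneousCore_mono _ hle)
  have h3 : (p.homogeneousCore (homogeneousSubmodule τ Ω)).toIdeal.IsPrime :=
    hprime.homogeneousCore
  have h4 : p ≤ (p.homogeneousCore (homogeneousSubmodule τ Ω)).toIdeal :=
    hp.2 ⟨h3, h2⟩ (Ideal.toIdeal_homogeneousCore_le _ _)
  have h5 : (p.homogeneousCore (homogeneousSubmodule τ Ω)).toIdeal = p :=
    le_antisymm (Ideal.toIdeal_homogeneousCore_le _ _) h4
  have h6 : p.IsHomogeneous (homogeneousSubmodule τ Ω) := by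
    rw [← h5]
    exact HomogeneousIdeal.isHomogeneous _
  have h7 := h6 i hP
  have h1 : ((DirectSum.decompose (homogeneousSubmodule τ Ω) P) i : MvPolynomial τ Ω)
      = homogeneousComponent i P := decomposition.decompose'_apply P i
  rwa [h1] at h7

end

theorem comp : StmComp := by
  intro Ω _ _ _ τ _ W k hk hS hcone
  classical
  have hinf : Infinite Ω := inferInstance
  have hfin : (vI W).minimalPrimes.Finite := Ideal.finite_minimalPrimes_of_isNoetherianRing _ _
  -- generators and coefficients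
  have hgen : ∀ p : Ideal (MvPolynomial τ Ω), ∃ G : Finset (MvPolynomial τ Ω),
      Ideal.span (G : Set (MvPolynomial τ Ω)) = p := fun p =>
    (isNoetherianRing_iff_ideal_fg _).1 inferInstance p
  choose G hG using hgen
  set T : Set Ω := ⋃ p ∈ (vI W).minimalPrimes, ⋃ g ∈ G p, (g.coeffs : Set Ω) with hT
  have hTc : T.Countable := by
    rw [hT]
    refine hfin.countable.biUnion fun p _ => ?_
    refine (G p).countable_toSet.biUnion fun g _ => ?_
    exact g.coeffs.countable_toSet
  set K : Subfield Ω := adj k T with hK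
  have hKc : Countable K := countable_adj hTc
  set k' : Subfield Ω := (algebraicClosure K Ω).toSubfield with hk'
  have hk'alg : IsAlgClosed k' := by
    have : IsAlgClosure K (algebraicClosure K Ω) := inferInstance
    exact this.isAlgClosed
  have hk'c : Countable k' := by
    rw [← Cardinal.mk_le_aleph0_iff]
    have h1 : Cardinal.mk (algebraicClosure K Ω) ≤ max (Cardinal.mk K) Cardinal.aleph0 :=
      Algebra.IsAlgebraic.cardinalMk_le_max K (algebraicClosure K Ω)
    refine le_trans h1 ?_
    simp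
  have hKk' : K ≤ k' := by
    intro x hx
    have : algebraMap K Ω ⟨x, hx⟩ ∈ algebraicClosure K Ω := algebraMap_mem _ _
    exact this
  have hkk' : k ≤ k' := (le_adj_left k T).trans hKk'
  have hTk' : T ⊆ k' := (subset_adj k T).trans hKk'
  -- the index type
  let Idx : Type := {p : Ideal (MvPolynomial τ Ω) // p ∈ (vI W).minimalPrimes ∧ (DD p).Nonempty}
  have hIdx : Finite Idx := by
    have : {p : Ideal (MvPolynomial τ Ω) |
        p ∈ (vI W).minimalPrimes ∧ (DD p).Nonempty}.Finite := hfin.subset fun p hp => hp.1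
    exact this.to_subtype
  obtain ⟨N, ⟨e⟩⟩ := Finite.exists_equiv_fin Idx
  -- closedness over k'
  have hclosed : ∀ p ∈ (vI W).minimalPrimes, ∀ v : τ → Ω,
      v ∈ DD p ↔ v ≠ 0 ∧ ∀ P ∈ {P : MvPolynomial τ k' | map (algebraMap k' Ω) P ∈ p},
        aeval v P = 0 := by
    intro p hp v
    refine and_congr_right fun _ => ⟨fun h P hP => ?_, fun h P hP => ?_⟩
    · have := h _ hP
      rwa [eval_map] at this
    · have h1 : ∀ g ∈ G p, eval v g = 0 := by
        intro g hg
        have h2 : g ∈ Set.range (map (algebraMap k' Ω) : MvPolynomial τ k' → MvPolynomial τ Ω) := by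
          rw [mem_range_map_iff_coeffs_subset]
          intro x hx
          have h3 : x ∈ T := by
            rw [hT]
            exact Set.mem_biUnion hp (Set.mem_biUnion hg hx)
          exact ⟨⟨x, hTk' h3⟩, rfl⟩
        obtain ⟨Q, rfl⟩ := h2
        have h3 : map (algebraMap k' Ω) Q ∈ p := by
          rw [← hG p]
          exact Ideal.subset_span hg
        have h4 := h Q h3
        rw [eval_map]
        exact h4
      have h2 : P ∈ Ideal.span (G p : Set (MvPolynomial τ Ω)) := by rw [hG p]; exact hP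
      have h3 : Ideal.span (G p : Set (MvPolynomial τ Ω)) ≤ RingHom.ker (eval v) := by
        rw [Ideal.span_le]
        intro g hg
        exact h1 g hg
      exact h3 h2
  -- dimensions
  have hdim : ∀ D : Set (τ → Ω), D.Nonempty → ∃ (m : ℕ), (∀ v ∈ D, rk k' (Set.range v) ≤ m) ∧
      ∃ v ∈ D, rk k' (Set.range v) = m := by
    intro D hD
    have hbd : ∀ v : τ → Ω, rk k' (Set.range v) ≤ (Fintype.card τ : ℕ∞) := by
      intro v
      refine (rk_le_encard _ _).trans ?_
      have : (Set.range v).encard ≤ (Set.univ : Set τ).encard := by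
        rw [← Set.image_univ]
        exact Set.encard_image_le _ _
      refine this.trans ?_
      rw [Set.encard_univ]
      simp
    set A : Set ℕ := {n | ∃ v ∈ D, rk k' (Set.range v) = n} with hA
    have hA1 : A.Nonempty := by
      obtain ⟨v, hv⟩ := hD
      have h1 : rk k' (Set.range v) ≠ ⊤ := ne_top_of_le_ne_top (ENat.natCast_ne_top _) (hbd v)
      obtain ⟨n, hn⟩ := ENat.ne_top_iff_exists.1 h1
      exact ⟨n, v, hv, hn.symm⟩
    have hA2 : BddAbove A := by
      refine ⟨Fintype.card τ, ?_⟩
      rintro n ⟨v, _, hn⟩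
      have := hbd v
      rw [hn] at this
      exact_mod_cast this
    have hA3 := Nat.sSup_mem hA1 hA2
    refine ⟨sSup A, fun v hv => ?_, hA3⟩
    have h1 : rk k' (Set.range v) ≠ ⊤ := ne_top_of_le_ne_top (ENat.natCast_ne_top _) (hbd v)
    obtain ⟨n, hn⟩ := ENat.ne_top_iff_exists.1 h1
    rw [← hn]
    have : n ≤ sSup A := le_csSup hA2 ⟨v, hv, hn.symm⟩
    exact_mod_cast this
  choose m hm1 hm2 using fun i : Fin N => hdim (DD (e.symm i).1) (e.symm i).2.2
  have hconeD : ∀ p ∈ (vI W).minimalPrimes, ∀ (c : Ω) (v : τ → Ω), c ≠ 0 → v ∈ DD p →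
      c • v ∈ DD p := by
    intro p hp c v hc hv
    refine ⟨smul_ne_zero hc hv.1, fun P hP => ?_⟩
    rw [← sum_homogeneousComponent P, map_sum]
    refine Finset.sum_eq_zero fun i _ => ?_
    rw [eval_smul_hom (homogeneousComponent_isHomogeneous i P),
      hv.2 _ (min_hom hcone hp hP i), mul_zero]
  refine ⟨k', N, fun i => DD (e.symm i).1, m, hk'c, hk'alg, hkk', ?_, ?_, ?_, ?_⟩
  · intro i
    show Setup k' (DD (e.symm i).1) (m i)
    obtain ⟨⟨p, hp, hne⟩, hpe⟩ : ∃ x, x = e.symm i := ⟨_, rfl⟩
    have h1 := hm1 i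
    have h2 := hm2 i
    rw [← hpe] at h1 h2 ⊢
    simp only at h1 h2 ⊢
    have hprime : p.IsPrime := hp.1.1
    refine ⟨hk'c, ⟨_, hclosed p hp⟩, ?_, ⟨k', hk'c, h1⟩, ?_⟩
    · -- prime
      intro P Q hPQ
      obtain ⟨v0, hv0⟩ := hne
      obtain ⟨a, ha⟩ : ∃ a, v0 a ≠ 0 := by
        by_contra hcon
        push Not at hcon
        exact hv0.1 (funext hcon)
      have hX : (X a : MvPolynomial τ Ω) ∉ p := by
        intro h
        have := hv0.2 _ h
        rw [eval_X] at this
        exact ha this
      have hmem : X a * (P * Q) ∈ p := by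
        rw [← IsPrime.vanishingIdeal_zeroLocus (K := Ω) p]
        intro v hv
        have hv' : ∀ R ∈ p, eval v R = 0 := fun R hR => hv R hR
        show eval v (X a * (P * Q)) = 0
        rw [map_mul, map_mul, eval_X]
        by_cases hv0 : v = 0
        · rw [hv0]; simp
        · rw [hPQ v ⟨hv0, hv'⟩, mul_zero]
      rcases hprime.mem_or_mem hmem with h | h
      · exact absurd h hX
      · rcases hprime.mem_or_mem h with h | h
        · exact Or.inl fun v hv => hv.2 _ h
        · exact Or.inr fun v hv => hv.2 _ h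
    · -- lower
      intro L hL
      obtain ⟨v0, hv0, hr⟩ := h2
      have hLc : Countable (adj k' (L : Set Ω)) := countable_adj (Set.countable_coe_iff.1 hL)
      obtain ⟨y', hy1, hy2⟩ := stmGeneric Ω τ k' (adj k' (L : Set Ω)) (le_adj_left _ _) hLc v0
      refine ⟨y', ?_, ?_⟩
      · have h3 := (hclosed p hp v0).1 hv0
        refine (hclosed p hp y').2 ⟨?_, fun P hP => (hy1 P).1 (h3.2 P hP)⟩
        obtain ⟨a, ha⟩ : ∃ a, v0 a ≠ 0 := by
          by_contra hcon
          push Not at hcon
          exact hv0.1 (funext hcon)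
        intro h0
        apply ha
        have h4 := (hy1 (X a)).2 (by rw [aeval_X, h0]; rfl)
        rwa [aeval_X] at h4
      · rw [← hr, ← hy2]
        exact rk_anti (subset_adj k' (L : Set Ω)) _
  · -- inside W
    intro i v hv
    obtain ⟨S, hS⟩ := hS
    rw [hS]
    refine ⟨hv.1, fun P hP => ?_⟩
    have h1 : map (algebraMap k Ω) P ∈ vI W := by
      rw [mem_vI]
      intro w hw
      rw [eval_map]
      exact ((hS w).1 hw).2 P hP
    have h2 := hv.2 _ ((e.symm i).2.1.1.2 h1)
    rw [eval_map] at h2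
    exact h2
  · intro i c v hc hv
    exact hconeD _ (e.symm i).2.1 c v hc hv
  · intro v hv
    have hle : vI W ≤ RingHom.ker (eval v : MvPolynomial τ Ω →+* Ω) := by
      intro P hP
      exact hP v hv
    have hpr : (RingHom.ker (eval v : MvPolynomial τ Ω →+* Ω)).IsPrime := RingHom.ker_isPrime _
    obtain ⟨p, hp, hple⟩ := Ideal.exists_minimalPrimes_le hle
    have hv0 : v ≠ 0 := by
      obtain ⟨S, hS⟩ := hS
      exact ((hS v).1 hv).1
    have hvD : v ∈ DD p := ⟨hv0, fun P hP => hple hP⟩
    refine ⟨e ⟨p, hp, ⟨v, hvD⟩⟩, ?_⟩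
    simp only [Equiv.symm_apply_apply]
    exact hvD

end Pool.Agent.Y899.OD
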